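import Mathlib

set_option autoImplicit false

namespace Pool.Agent.Results.MP_487945_co.Octahedron

open MvPolynomial

/-- the ideal generated by the squarefree monomials of non-faces and the moment-curve forms
`θ_j = ∑ t_v ^ j x_v`, `j = 1, …, d` -/
noncomputable def artIdeal {V k : Type} [Fintype V] [Field k] (Δ : Set (Finset V)) (d : ℕ)
    (t : V → k) : Ideal (MvPolynomial V k) :=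
  Ideal.span {m | ∃ s, s ∉ Δ ∧ m = ∏ v ∈ s, X v} ⊔
    Ideal.span {m | ∃ j, 1 ≤ j ∧ j ≤ d ∧ m = ∑ v, C (t v ^ j) * X v}

/-- the degree `m` part of the Artinian reduction -/
noncomputable def piece {V k : Type} [Fintype V] [Field k] (Δ : Set (Finset V)) (d : ℕ)
    (t : V → k) (m : ℕ) : Submodule k (MvPolynomial V k ⧸ artIdeal Δ d t) :=
  (homogeneousSubmodule V k m).map (Ideal.Quotient.mkₐ k (artIdeal Δ d t)).toLinearMap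

/-- the hard Lefschetz property of the Artinian reduction -/
def HasLefschetz {V k : Type} [Fintype V] [Field k] (Δ : Set (Finset V)) (d : ℕ)
    (t : V → k) : Prop :=
  ∃ l ∈ piece Δ d t 1, ∀ m, 2 * m ≤ d →
    Set.BijOn (fun a => l ^ (d - 2 * m) * a) (piece Δ d t m) (piece Δ d t (d - m))

/-- the boundary complex of the octahedron: vertex sets without an antipodal pair -/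
def octahedron : Set (Finset (Fin 3 × Bool)) := {s | ∀ j, ¬ ((j, false) ∈ s ∧ (j, true) ∈ s)}

theorem cubes {A : Type} [CommRing A] (i x0 x1 x2 x3 x4 x5 : A) (hi : i ^ 2 + 1 = 0)
    (h3 : (3 : A) = 0) (p0 : x0 * x1 = 0) (p1 : x2 * x3 = 0) (p2 : x4 * x5 = 0)
    (h0 : (1+0*i)^1*x0 + (0+1*i)^1*x1 + (0+2*i)^1*x2 + (2+0*i)^1*x3 + (2+1*i)^1*x4 + (1+2*i)^1*x5 = 0)
    (h1 : (1+0*i)^2*x0 + (0+1*i)^2*x1 + (0+2*i)^2*x2 + (2+0*i)^2*x3 + (2+1*i)^2*x4 + (1+2*i)^2*x5 = 0)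
    (h2 : (1+0*i)^3*x0 + (0+1*i)^3*x1 + (0+2*i)^3*x2 + (2+0*i)^3*x3 + (2+1*i)^3*x4 + (1+2*i)^3*x5 = 0) :
    x0 ^ 3 = 0 ∧ x1 ^ 3 = 0 ∧ x2 ^ 3 = 0 ∧ x3 ^ 3 = 0 ∧ x4 ^ 3 = 0 ∧ x5 ^ 3 = 0 := by
  refine ⟨?_, ?_, ?_, ?_, ?_, ?_⟩
  · linear_combination
      ((1+2*i)*x0*x0 + (1+2*i)*x0*x2 + (2+1*i)*x0*x3 + (1+1*i)*x0*x4) * h0 + ((2+2*i)*x0*x0
      + (0+1*i)*x0*x1 + (1+2*i)*x0*x2 + (0+1*i)*x0*x3 + (0+1*i)*x0*x4) * h1 + ((1+2*i)*x0*x0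
      + (2+1*i)*x0*x1 + (0+1*i)*x0*x2 + (1+0*i)*x0*x3) * h2 + ((2+0*i)*x1) * p0 +
      ((2+0*i)*x0) * p1 + ((2+0*i)*x0) * p2 + ((-2)*i^2*x0*x0*x1 + (-16)*i^2*x0*x0*x2 +
      (-2)*i^2*x0*x0*x4 + (-16)*i^2*x0*x0*x5 + (-1)*i^2*x0*x1*x1 + (-9)*i^2*x0*x1*x2 +
      (-1)*i^2*x0*x1*x4 + (-8)*i^2*x0*x1*x5 + (-8)*i^2*x0*x2*x2 + (-1)*i^2*x0*x2*x4 +
      (-8)*i^2*x0*x2*x5 + (-3)*i^1*x0*x0*x1 + (-16)*i^1*x0*x0*x2 + (-15)*i^1*x0*x0*x4 +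
      (-40)*i^1*x0*x0*x5 + (-3)*i^1*x0*x1*x1 + (-22)*i^1*x0*x1*x2 + (-2)*i^1*x0*x1*x3 +
      (-10)*i^1*x0*x1*x4 + (-32)*i^1*x0*x1*x5 + (-8)*i^1*x0*x2*x2 + (-12)*i^1*x0*x2*x3 +
      (-12)*i^1*x0*x2*x4 + (-20)*i^1*x0*x2*x5 + (-2)*i^1*x0*x3*x4 + (-12)*i^1*x0*x3*x5 +
      (-1)*i^1*x0*x4*x4 + (-4)*i^1*x0*x4*x5 + (-2)*i^0*x0*x0*x1 + (4)*i^0*x0*x0*x2 +
      (-40)*i^0*x0*x0*x4 + (-28)*i^0*x0*x0*x5 + (6)*i^0*x0*x1*x2 + (-2)*i^0*x0*x2*x3 +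
      (-24)*i^0*x0*x2*x4 + (-14)*i^0*x0*x2*x5 + (-1)*i^0*x0*x1*x3 + (-11)*i^0*x0*x3*x4 +
      (-18)*i^0*x0*x3*x5 + (-28)*i^0*x0*x1*x4 + (-5)*i^0*x0*x4*x4 + (-6)*i^0*x0*x4*x5 +
      (1)*i^0*x0*x1*x1 + (-26)*i^0*x0*x1*x5) * hi + ((-1)*i^0*x0*x0*x0 + (-2)*i^1*x0*x0*x0 +
      (-2)*i^0*x0*x0*x2 + (3)*i^1*x0*x0*x2 + (-7)*i^0*x0*x0*x3 + (-10)*i^1*x0*x0*x3 +
      (7)*i^0*x0*x0*x4 + (-12)*i^1*x0*x0*x4 + (8)*i^0*x0*x0*x5 + (6)*i^1*x0*x0*x5 +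
      (-2)*i^0*x0*x1*x2 + (7)*i^1*x0*x1*x2 + (2)*i^1*x0*x2*x2 + (-2)*i^0*x0*x2*x3 +
      (-4)*i^1*x0*x2*x3 + (6)*i^0*x0*x2*x4 + (-5)*i^1*x0*x2*x4 + (4)*i^0*x0*x2*x5 +
      (3)*i^1*x0*x2*x5 + (-5)*i^0*x0*x1*x3 + (-4)*i^1*x0*x1*x3 + (-4)*i^0*x0*x3*x3 +
      (-2)*i^1*x0*x3*x3 + (-1)*i^0*x0*x3*x4 + (-8)*i^1*x0*x3*x4 + (5)*i^0*x0*x3*x5 +
      (4)*i^0*x0*x1*x4 + (-9)*i^1*x0*x1*x4 + (1)*i^0*x0*x4*x4 + (-2)*i^1*x0*x4*x4 +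
      (1)*i^0*x0*x4*x5 + (-1)*i^0*x0*x1*x1 + (1)*i^1*x0*x1*x1 + (8)*i^0*x0*x1*x5 +
      (6)*i^1*x0*x1*x5) * h3
  · linear_combination
      ((1+2*i)*x0*x1 + (1+2*i)*x1*x2 + (2+1*i)*x1*x3 + (1+1*i)*x1*x4) * h0 + ((2+2*i)*x0*x1
      + (0+1*i)*x1*x1 + (1+2*i)*x1*x2 + (0+1*i)*x1*x3 + (0+1*i)*x1*x4) * h1 + ((1+2*i)*x0*x1
      + (2+1*i)*x1*x1 + (0+1*i)*x1*x2 + (1+0*i)*x1*x3) * h2 + ((2+0*i)*x0) * p0 +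
      ((2+0*i)*x1) * p1 + ((2+0*i)*x1) * p2 + ((-2)*i^2*x0*x1*x1 + (-16)*i^2*x0*x1*x2 +
      (-2)*i^2*x0*x1*x4 + (-16)*i^2*x0*x1*x5 + (-1)*i^2*x1*x1*x1 + (-9)*i^2*x1*x1*x2 +
      (-1)*i^2*x1*x1*x4 + (-8)*i^2*x1*x1*x5 + (-8)*i^2*x1*x2*x2 + (-1)*i^2*x1*x2*x4 +
      (-8)*i^2*x1*x2*x5 + (-3)*i^1*x0*x1*x1 + (-16)*i^1*x0*x1*x2 + (-15)*i^1*x0*x1*x4 +
      (-40)*i^1*x0*x1*x5 + (-3)*i^1*x1*x1*x1 + (-22)*i^1*x1*x1*x2 + (-2)*i^1*x1*x1*x3 +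
      (-10)*i^1*x1*x1*x4 + (-32)*i^1*x1*x1*x5 + (-8)*i^1*x1*x2*x2 + (-12)*i^1*x1*x2*x3 +
      (-12)*i^1*x1*x2*x4 + (-20)*i^1*x1*x2*x5 + (-2)*i^1*x1*x3*x4 + (-12)*i^1*x1*x3*x5 +
      (-1)*i^1*x1*x4*x4 + (-4)*i^1*x1*x4*x5 + (-2)*i^0*x0*x1*x1 + (4)*i^0*x0*x1*x2 +
      (-40)*i^0*x0*x1*x4 + (-28)*i^0*x0*x1*x5 + (6)*i^0*x1*x1*x2 + (-2)*i^0*x1*x2*x3 +
      (-24)*i^0*x1*x2*x4 + (-14)*i^0*x1*x2*x5 + (-1)*i^0*x1*x1*x3 + (-11)*i^0*x1*x3*x4 +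
      (-18)*i^0*x1*x3*x5 + (-28)*i^0*x1*x1*x4 + (-5)*i^0*x1*x4*x4 + (-6)*i^0*x1*x4*x5 +
      (1)*i^0*x1*x1*x1 + (-26)*i^0*x1*x1*x5) * hi + ((-2)*i^0*x0*x0*x1 + (-2)*i^1*x0*x0*x1 +
      (-2)*i^0*x0*x1*x2 + (3)*i^1*x0*x1*x2 + (-7)*i^0*x0*x1*x3 + (-10)*i^1*x0*x1*x3 +
      (7)*i^0*x0*x1*x4 + (-12)*i^1*x0*x1*x4 + (8)*i^0*x0*x1*x5 + (6)*i^1*x0*x1*x5 +
      (-2)*i^0*x1*x1*x2 + (7)*i^1*x1*x1*x2 + (2)*i^1*x1*x2*x2 + (-2)*i^0*x1*x2*x3 +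
      (-4)*i^1*x1*x2*x3 + (6)*i^0*x1*x2*x4 + (-5)*i^1*x1*x2*x4 + (4)*i^0*x1*x2*x5 +
      (3)*i^1*x1*x2*x5 + (-5)*i^0*x1*x1*x3 + (-4)*i^1*x1*x1*x3 + (-4)*i^0*x1*x3*x3 +
      (-2)*i^1*x1*x3*x3 + (-1)*i^0*x1*x3*x4 + (-8)*i^1*x1*x3*x4 + (5)*i^0*x1*x3*x5 +
      (4)*i^0*x1*x1*x4 + (-9)*i^1*x1*x1*x4 + (1)*i^0*x1*x4*x4 + (-2)*i^1*x1*x4*x4 +
      (1)*i^0*x1*x4*x5 + (1)*i^1*x1*x1*x1 + (8)*i^0*x1*x1*x5 + (6)*i^1*x1*x1*x5) * h3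
  · linear_combination
      ((2+1*i)*x0*x2 + (1+2*i)*x1*x2 + (2+1*i)*x2*x2 + (2+1*i)*x2*x3 + (1+1*i)*x2*x4) * h0 +
      ((2+2*i)*x0*x2 + (0+1*i)*x1*x2 + (1+2*i)*x2*x2 + (0+1*i)*x2*x3 + (0+1*i)*x2*x4) * h1 +
      ((2+0*i)*x0*x2 + (0+2*i)*x1*x2 + (1+2*i)*x2*x2 + (1+0*i)*x2*x3) * h2 + ((2+0*i)*x2) *
      p0 + ((2+0*i)*x0 + (2+0*i)*x1 + (1+0*i)*x2) * p1 + ((2+0*i)*x2) * p2 +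
      ((-2)*i^2*x1*x1*x2 + (-18)*i^2*x1*x2*x2 + (-2)*i^2*x1*x2*x4 + (-16)*i^2*x1*x2*x5 +
      (-16)*i^2*x2*x2*x2 + (-2)*i^2*x2*x2*x4 + (-16)*i^2*x2*x2*x5 + (-4)*i^1*x0*x1*x2 +
      (-24)*i^1*x0*x2*x2 + (-4)*i^1*x0*x2*x4 + (-24)*i^1*x0*x2*x5 + (-1)*i^1*x1*x1*x2 +
      (-7)*i^1*x1*x2*x2 + (-2)*i^1*x1*x2*x3 + (-14)*i^1*x1*x2*x4 + (-28)*i^1*x1*x2*x5 +
      (-16)*i^1*x2*x2*x2 + (-12)*i^1*x2*x2*x3 + (-19)*i^1*x2*x2*x4 + (-40)*i^1*x2*x2*x5 +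
      (-2)*i^1*x2*x3*x4 + (-12)*i^1*x2*x3*x5 + (-1)*i^1*x2*x4*x4 + (-4)*i^1*x2*x4*x5 +
      (-3)*i^0*x0*x1*x2 + (-10)*i^0*x0*x2*x2 + (-23)*i^0*x0*x2*x4 + (-42)*i^0*x0*x2*x5 +
      (12)*i^0*x1*x2*x2 + (-1)*i^0*x1*x2*x3 + (-29)*i^0*x1*x2*x4 + (-4)*i^0*x1*x2*x5 +
      (10)*i^0*x2*x2*x2 + (-2)*i^0*x2*x2*x3 + (-40)*i^0*x2*x2*x4 + (-22)*i^0*x2*x2*x5 +
      (-11)*i^0*x2*x3*x4 + (-18)*i^0*x2*x3*x5 + (-5)*i^0*x2*x4*x4 + (-6)*i^0*x2*x4*x5) * hi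
      + ((-3)*i^0*x2*x2*x2 + (-2)*i^0*x0*x0*x2 + (-1)*i^1*x0*x0*x2 + (-1)*i^1*x0*x1*x2 +
      (2)*i^0*x0*x2*x2 + (5)*i^1*x0*x2*x2 + (-11)*i^0*x0*x2*x3 + (-4)*i^1*x0*x2*x3 +
      (-2)*i^0*x0*x2*x4 + (-14)*i^1*x0*x2*x4 + (12)*i^0*x0*x2*x5 + (-1)*i^1*x0*x2*x5 +
      (-4)*i^0*x1*x2*x2 + (1)*i^1*x1*x2*x2 + (-1)*i^0*x1*x2*x3 + (-8)*i^1*x1*x2*x3 +
      (9)*i^0*x1*x2*x4 + (-4)*i^1*x1*x2*x4 + (1)*i^0*x1*x2*x5 + (7)*i^1*x1*x2*x5 +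
      (4)*i^1*x2*x2*x2 + (-5)*i^0*x2*x2*x3 + (-6)*i^1*x2*x2*x3 + (8)*i^0*x2*x2*x4 +
      (-9)*i^1*x2*x2*x4 + (6)*i^0*x2*x2*x5 + (7)*i^1*x2*x2*x5 + (-4)*i^0*x2*x3*x3 +
      (-2)*i^1*x2*x3*x3 + (-1)*i^0*x2*x3*x4 + (-8)*i^1*x2*x3*x4 + (5)*i^0*x2*x3*x5 +
      (1)*i^0*x2*x4*x4 + (-2)*i^1*x2*x4*x4 + (1)*i^0*x2*x4*x5) * h3
  · linear_combination
      ((2+1*i)*x0*x0 + (1+1*i)*x0*x4 + (1+2*i)*x1*x1 + (1+2*i)*x1*x2 + (1+1*i)*x1*x4 +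
      (2+1*i)*x2*x2 + (2+2*i)*x2*x4 + (1+2*i)*x3*x3) * h0 + ((2+2*i)*x0*x0 + (2+0*i)*x0*x1 +
      (2+0*i)*x0*x2 + (0+1*i)*x0*x3 + (0+1*i)*x0*x4 + (0+1*i)*x1*x1 + (1+1*i)*x1*x2 +
      (0+1*i)*x1*x3 + (0+1*i)*x1*x4 + (2+1*i)*x2*x2 + (0+2*i)*x2*x3 + (0+2*i)*x2*x4) * h1 +
      ((2+0*i)*x0*x0 + (2+2*i)*x0*x1 + (2+2*i)*x0*x2 + (2+1*i)*x0*x3 + (0+2*i)*x1*x1 +
      (1+0*i)*x1*x2 + (2+1*i)*x1*x3 + (0+2*i)*x2*x2 + (1+2*i)*x2*x3 + (1+1*i)*x3*x3) * h2 +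
      ((2+0*i)*x0 + (2+0*i)*x1 + (1+0*i)*x2) * p0 + ((2+0*i)*x2) * p1 + ((2+0*i)*x0 +
      (2+0*i)*x1 + (1+0*i)*x2) * p2 + ((-2)*i^2*x0*x1*x1 + (-18)*i^2*x0*x1*x2 +
      (-1)*i^2*x0*x1*x3 + (-2)*i^2*x0*x1*x4 + (-16)*i^2*x0*x1*x5 + (-16)*i^2*x0*x2*x2 +
      (-8)*i^2*x0*x2*x3 + (-2)*i^2*x0*x2*x4 + (-16)*i^2*x0*x2*x5 + (-1)*i^2*x0*x3*x4 +
      (-8)*i^2*x0*x3*x5 + (-2)*i^2*x1*x1*x1 + (-16)*i^2*x1*x1*x2 + (-1)*i^2*x1*x1*x3 +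
      (-2)*i^2*x1*x1*x4 + (-16)*i^2*x1*x1*x5 + (-2)*i^2*x1*x2*x2 + (-10)*i^2*x1*x2*x3 +
      (-1)*i^2*x1*x3*x3 + (-1)*i^2*x1*x3*x4 + (-8)*i^2*x1*x3*x5 + (-16)*i^2*x2*x2*x2 +
      (-16)*i^2*x2*x2*x3 + (-2)*i^2*x2*x2*x4 + (-16)*i^2*x2*x2*x5 + (-8)*i^2*x2*x3*x3 +
      (-2)*i^2*x2*x3*x4 + (-16)*i^2*x2*x3*x5 + (-1)*i^2*x3*x3*x4 + (-8)*i^2*x3*x3*x5 +
      (-4)*i^1*x0*x0*x1 + (-24)*i^1*x0*x0*x2 + (-4)*i^1*x0*x0*x4 + (-24)*i^1*x0*x0*x5 +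
      (-2)*i^1*x0*x1*x1 + (-18)*i^1*x0*x1*x2 + (-3)*i^1*x0*x1*x3 + (-15)*i^1*x0*x1*x4 +
      (-40)*i^1*x0*x1*x5 + (-16)*i^1*x0*x2*x2 + (-20)*i^1*x0*x2*x3 + (-18)*i^1*x0*x2*x4 +
      (-40)*i^1*x0*x2*x5 + (-9)*i^1*x0*x3*x4 + (-32)*i^1*x0*x3*x5 + (-1)*i^1*x0*x4*x4 +
      (-4)*i^1*x0*x4*x5 + (-1)*i^1*x1*x1*x1 + (-6)*i^1*x1*x1*x2 + (-3)*i^1*x1*x1*x3 +
      (-14)*i^1*x1*x1*x4 + (-28)*i^1*x1*x1*x5 + (-13)*i^1*x1*x2*x2 + (-23)*i^1*x1*x2*x3 +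
      (-8)*i^1*x1*x2*x4 + (-12)*i^1*x1*x2*x5 + (-1)*i^1*x1*x3*x3 + (-9)*i^1*x1*x3*x4 +
      (-32)*i^1*x1*x3*x5 + (-1)*i^1*x1*x4*x4 + (-4)*i^1*x1*x4*x5 + (-4)*i^1*x2*x2*x2 +
      (-16)*i^1*x2*x2*x3 + (-21)*i^1*x2*x2*x4 + (-28)*i^1*x2*x2*x5 + (-8)*i^1*x2*x3*x3 +
      (-15)*i^1*x2*x3*x4 + (-40)*i^1*x2*x3*x5 + (-2)*i^1*x2*x4*x4 + (-8)*i^1*x2*x4*x5 +
      (-7)*i^1*x3*x3*x4 + (-20)*i^1*x3*x3*x5 + (-3)*i^0*x0*x0*x1 + (-10)*i^0*x0*x0*x2 +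
      (-23)*i^0*x0*x0*x4 + (-42)*i^0*x0*x0*x5 + (-37)*i^0*x0*x1*x4 + (-38)*i^0*x0*x2*x4 +
      (-27)*i^0*x0*x3*x4 + (-5)*i^0*x0*x4*x4 + (-6)*i^0*x0*x4*x5 + (9)*i^0*x1*x1*x2 +
      (1)*i^0*x1*x1*x3 + (-29)*i^0*x1*x1*x4 + (-4)*i^0*x1*x1*x5 + (8)*i^0*x0*x1*x2 +
      (-9)*i^0*x1*x2*x2 + (10)*i^0*x1*x2*x3 + (-17)*i^0*x1*x2*x4 + (-24)*i^0*x1*x2*x5 +
      (-27)*i^0*x1*x3*x4 + (-5)*i^0*x1*x4*x4 + (-6)*i^0*x1*x4*x5 + (8)*i^0*x0*x2*x2 +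
      (6)*i^0*x2*x2*x2 + (16)*i^0*x2*x2*x3 + (-33)*i^0*x2*x2*x4 + (-10)*i^0*x2*x2*x5 +
      (-36)*i^0*x2*x3*x4 + (-10)*i^0*x2*x4*x4 + (-12)*i^0*x2*x4*x5 + (-1)*i^0*x1*x3*x3 +
      (4)*i^0*x2*x3*x3 + (-19)*i^0*x3*x3*x4 + (-14)*i^0*x3*x3*x5 + (1)*i^0*x0*x1*x3 +
      (-28)*i^0*x0*x1*x5 + (8)*i^0*x0*x2*x3 + (-28)*i^0*x0*x2*x5 + (-26)*i^0*x0*x3*x5 +
      (-26)*i^0*x1*x3*x5 + (-16)*i^0*x2*x3*x5) * hi + ((-3)*i^0*x3*x3*x3 + (-2)*i^0*x0*x0*x0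
      + (-1)*i^1*x0*x0*x0 + (-1)*i^0*x0*x0*x1 + (2)*i^0*x0*x0*x2 + (6)*i^1*x0*x0*x2 +
      (-10)*i^0*x0*x0*x3 + (-4)*i^1*x0*x0*x3 + (-2)*i^0*x0*x0*x4 + (-14)*i^1*x0*x0*x4 +
      (12)*i^0*x0*x0*x5 + (-1)*i^1*x0*x0*x5 + (4)*i^0*x0*x1*x4 + (-12)*i^1*x0*x1*x4 +
      (4)*i^0*x0*x2*x4 + (-12)*i^1*x0*x2*x4 + (3)*i^0*x0*x3*x4 + (-11)*i^1*x0*x3*x4 +
      (1)*i^0*x0*x4*x4 + (-2)*i^1*x0*x4*x4 + (1)*i^0*x0*x4*x5 + (-1)*i^0*x0*x1*x1 +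
      (-1)*i^1*x0*x1*x1 + (-3)*i^0*x1*x1*x2 + (1)*i^1*x1*x1*x2 + (-1)*i^0*x1*x1*x3 +
      (-7)*i^1*x1*x1*x3 + (9)*i^0*x1*x1*x4 + (-4)*i^1*x1*x1*x4 + (1)*i^0*x1*x1*x5 +
      (7)*i^1*x1*x1*x5 + (-4)*i^0*x0*x1*x2 + (5)*i^1*x0*x1*x2 + (3)*i^0*x1*x2*x2 +
      (3)*i^1*x1*x2*x2 + (-8)*i^0*x1*x2*x3 + (5)*i^1*x1*x2*x3 + (1)*i^0*x1*x2*x4 +
      (-7)*i^1*x1*x2*x4 + (7)*i^0*x1*x2*x5 + (-1)*i^1*x1*x2*x5 + (3)*i^0*x1*x3*x4 +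
      (-11)*i^1*x1*x3*x4 + (1)*i^0*x1*x4*x4 + (-2)*i^1*x1*x4*x4 + (1)*i^0*x1*x4*x5 +
      (-4)*i^0*x0*x2*x2 + (4)*i^1*x0*x2*x2 + (-2)*i^0*x2*x2*x2 + (-10)*i^0*x2*x2*x3 +
      (-2)*i^1*x2*x2*x3 + (7)*i^0*x2*x2*x4 + (-5)*i^1*x2*x2*x4 + (2)*i^0*x2*x2*x5 +
      (4)*i^1*x2*x2*x5 + (8)*i^0*x2*x3*x4 + (-11)*i^1*x2*x3*x4 + (2)*i^0*x2*x4*x4 +
      (-4)*i^1*x2*x4*x4 + (3)*i^0*x2*x4*x5 + (-6)*i^0*x0*x3*x3 + (-5)*i^1*x0*x3*x3 +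
      (-5)*i^0*x1*x3*x3 + (-4)*i^1*x1*x3*x3 + (-4)*i^0*x2*x3*x3 + (-6)*i^1*x2*x3*x3 +
      (-4)*i^1*x3*x3*x3 + (3)*i^0*x3*x3*x4 + (-6)*i^1*x3*x3*x4 + (4)*i^0*x3*x3*x5 +
      (3)*i^1*x3*x3*x5 + (-9)*i^0*x0*x1*x3 + (-5)*i^1*x0*x1*x3 + (8)*i^0*x0*x1*x5 +
      (6)*i^1*x0*x1*x5 + (-11)*i^0*x0*x2*x3 + (8)*i^0*x0*x2*x5 + (6)*i^1*x0*x2*x5 +
      (8)*i^0*x0*x3*x5 + (6)*i^1*x0*x3*x5 + (8)*i^0*x1*x3*x5 + (6)*i^1*x1*x3*x5 +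
      (5)*i^0*x2*x3*x5 + (10)*i^1*x2*x3*x5) * h3
  · linear_combination
      ((2+1*i)*x0*x0 + (1+1*i)*x0*x2 + (0+1*i)*x0*x3 + (0+1*i)*x0*x4 + (0+1*i)*x1*x1 +
      (2+2*i)*x1*x2 + (2+0*i)*x1*x3 + (1+0*i)*x1*x4 + (0+1*i)*x2*x3 + (0+2*i)*x2*x4 +
      (2+2*i)*x3*x3 + (2+0*i)*x3*x4 + (2+2*i)*x4*x4) * h0 + ((2+2*i)*x0*x0 + (2+0*i)*x0*x1 +
      (1+1*i)*x0*x2 + (2+1*i)*x0*x3 + (1+1*i)*x0*x4 + (1+1*i)*x1*x1 + (2+2*i)*x1*x2 +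
      (0+2*i)*x1*x3 + (1+0*i)*x1*x4 + (2+0*i)*x2*x4 + (2+0*i)*x3*x3 + (2+2*i)*x3*x4 +
      (0+1*i)*x4*x4) * h1 + ((2+0*i)*x0*x0 + (2+2*i)*x0*x1 + (2+0*i)*x0*x2 + (2+2*i)*x1*x1 +
      (1+0*i)*x1*x2 + (1+1*i)*x1*x3 + (2+0*i)*x2*x3 + (0+1*i)*x3*x3) * h2 + ((2+0*i)*x0 +
      (0+1*i)*x1 + (1+2*i)*x2) * p0 + ((1+0*i)*x0 + (0+2*i)*x1 + (2+1*i)*x2) * p1 +
      ((0+1*i)*x0 + (2+0*i)*x1 + (1+2*i)*x2) * p2 + ((-2)*i^2*x0*x1*x1 + (-16)*i^2*x0*x1*x2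
      + (-2)*i^2*x0*x1*x4 + (-16)*i^2*x0*x1*x5 + (-2)*i^2*x1*x1*x1 + (-16)*i^2*x1*x1*x2 +
      (-1)*i^2*x1*x1*x3 + (-2)*i^2*x1*x1*x4 + (-16)*i^2*x1*x1*x5 + (-8)*i^2*x1*x2*x3 +
      (-1)*i^2*x1*x3*x3 + (-1)*i^2*x1*x3*x4 + (-8)*i^2*x1*x3*x5 + (-8)*i^2*x2*x3*x3 +
      (-1)*i^2*x3*x3*x4 + (-8)*i^2*x3*x3*x5 + (-4)*i^1*x0*x0*x1 + (-24)*i^1*x0*x0*x2 +
      (-4)*i^1*x0*x0*x4 + (-24)*i^1*x0*x0*x5 + (-2)*i^1*x0*x1*x1 + (-19)*i^1*x0*x1*x2 +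
      (-1)*i^1*x0*x1*x3 + (-15)*i^1*x0*x1*x4 + (-40)*i^1*x0*x1*x5 + (-20)*i^1*x0*x2*x2 +
      (-4)*i^1*x0*x2*x3 + (-7)*i^1*x0*x2*x4 + (-20)*i^1*x0*x2*x5 + (-1)*i^1*x0*x3*x4 +
      (-4)*i^1*x0*x3*x5 + (-1)*i^1*x0*x4*x4 + (-4)*i^1*x0*x4*x5 + (-3)*i^1*x1*x1*x1 +
      (-23)*i^1*x1*x1*x2 + (-3)*i^1*x1*x1*x3 + (-15)*i^1*x1*x1*x4 + (-44)*i^1*x1*x1*x5 +
      (-16)*i^1*x1*x2*x2 + (-18)*i^1*x1*x2*x3 + (-3)*i^1*x1*x2*x4 + (-16)*i^1*x1*x2*x5 +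
      (-11)*i^1*x1*x3*x4 + (-28)*i^1*x1*x3*x5 + (-1)*i^1*x1*x4*x4 + (-10)*i^1*x2*x3*x4 +
      (-4)*i^1*x2*x4*x4 + (-6)*i^1*x3*x3*x4 + (-12)*i^1*x3*x3*x5 + (-2)*i^1*x3*x4*x4 +
      (-8)*i^1*x3*x4*x5 + (-1)*i^1*x4*x4*x4 + (-4)*i^1*x4*x4*x5 + (-16)*i^1*x2*x2*x3 +
      (-16)*i^1*x2*x3*x5 + (-3)*i^0*x0*x0*x1 + (-10)*i^0*x0*x0*x2 + (-23)*i^0*x0*x0*x4 +
      (-42)*i^0*x0*x0*x5 + (6)*i^0*x0*x1*x2 + (-6)*i^0*x0*x2*x2 + (-10)*i^0*x0*x2*x3 +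
      (-24)*i^0*x0*x2*x4 + (-34)*i^0*x0*x2*x5 + (-3)*i^0*x0*x1*x3 + (-7)*i^0*x0*x3*x4 +
      (-14)*i^0*x0*x3*x5 + (-38)*i^0*x0*x1*x4 + (-6)*i^0*x0*x4*x4 + (-10)*i^0*x0*x4*x5 +
      (6)*i^0*x1*x1*x2 + (1)*i^0*x1*x1*x3 + (-41)*i^0*x1*x1*x4 + (-30)*i^0*x1*x1*x5 +
      (-12)*i^0*x1*x2*x2 + (7)*i^0*x1*x2*x3 + (-26)*i^0*x1*x2*x4 + (-32)*i^0*x1*x2*x5 +
      (-3)*i^0*x1*x3*x3 + (-27)*i^0*x1*x3*x4 + (-18)*i^0*x1*x3*x5 + (-3)*i^0*x1*x4*x4 +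
      (-4)*i^0*x1*x4*x5 + (-2)*i^0*x2*x2*x3 + (-4)*i^0*x2*x3*x3 + (-21)*i^0*x2*x3*x4 +
      (-26)*i^0*x2*x3*x5 + (-12)*i^0*x2*x2*x4 + (-8)*i^0*x2*x4*x4 + (-12)*i^0*x2*x4*x5 +
      (-15)*i^0*x3*x3*x4 + (-10)*i^0*x3*x3*x5 + (-10)*i^0*x3*x4*x4 + (-16)*i^0*x3*x4*x5 +
      (-6)*i^0*x4*x4*x4 + (-8)*i^0*x4*x4*x5 + (-28)*i^0*x0*x1*x5) * hi + ((1)*i^0*x4*x4*x4 +
      (-2)*i^0*x0*x0*x0 + (-1)*i^1*x0*x0*x0 + (-1)*i^0*x0*x0*x1 + (2)*i^0*x0*x0*x2 +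
      (6)*i^1*x0*x0*x2 + (-10)*i^0*x0*x0*x3 + (-4)*i^1*x0*x0*x3 + (-2)*i^0*x0*x0*x4 +
      (-14)*i^1*x0*x0*x4 + (12)*i^0*x0*x0*x5 + (-1)*i^1*x0*x0*x5 + (-4)*i^0*x0*x1*x2 +
      (4)*i^1*x0*x1*x2 + (2)*i^0*x0*x2*x2 + (6)*i^1*x0*x2*x2 + (-5)*i^0*x0*x2*x3 +
      (-1)*i^1*x0*x2*x3 + (-10)*i^1*x0*x2*x4 + (10)*i^0*x0*x2*x5 + (-8)*i^0*x0*x1*x3 +
      (-6)*i^1*x0*x1*x3 + (-4)*i^0*x0*x3*x3 + (-3)*i^1*x0*x3*x3 + (-3)*i^0*x0*x3*x4 +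
      (-7)*i^1*x0*x3*x4 + (4)*i^0*x0*x3*x5 + (-2)*i^1*x0*x3*x5 + (4)*i^0*x0*x1*x4 +
      (-11)*i^1*x0*x1*x4 + (-4)*i^1*x0*x4*x4 + (3)*i^0*x0*x4*x5 + (-1)*i^1*x0*x4*x5 +
      (-1)*i^0*x0*x1*x1 + (-1)*i^1*x0*x1*x1 + (1)*i^1*x1*x1*x1 + (-2)*i^0*x1*x1*x2 +
      (7)*i^1*x1*x1*x2 + (-7)*i^0*x1*x1*x3 + (-7)*i^1*x1*x1*x3 + (7)*i^0*x1*x1*x4 +
      (-12)*i^1*x1*x1*x4 + (9)*i^0*x1*x1*x5 + (8)*i^1*x1*x1*x5 + (4)*i^0*x1*x2*x2 +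
      (4)*i^1*x1*x2*x2 + (-9)*i^0*x1*x2*x3 + (2)*i^0*x1*x2*x4 + (-11)*i^1*x1*x2*x4 +
      (9)*i^0*x1*x2*x5 + (-2)*i^1*x1*x2*x5 + (-3)*i^0*x1*x3*x3 + (-6)*i^1*x1*x3*x3 +
      (3)*i^0*x1*x3*x4 + (-7)*i^1*x1*x3*x4 + (5)*i^0*x1*x3*x5 + (5)*i^1*x1*x3*x5 +
      (-1)*i^0*x1*x4*x4 + (-2)*i^1*x1*x4*x4 + (-2)*i^1*x1*x4*x5 + (5)*i^1*x2*x2*x3 +
      (-4)*i^0*x2*x3*x3 + (-2)*i^1*x2*x3*x3 + (-1)*i^0*x2*x3*x4 + (-8)*i^1*x2*x3*x4 +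
      (8)*i^0*x2*x3*x5 + (1)*i^1*x2*x3*x5 + (4)*i^0*x2*x2*x4 + (-4)*i^1*x2*x4*x4 +
      (3)*i^0*x2*x4*x5 + (-4)*i^1*x2*x4*x5 + (-4)*i^0*x3*x3*x3 + (-4)*i^1*x3*x3*x3 +
      (-3)*i^0*x3*x3*x4 + (-8)*i^1*x3*x3*x4 + (2)*i^0*x3*x3*x5 + (-1)*i^1*x3*x3*x5 +
      (-2)*i^0*x3*x4*x4 + (-8)*i^1*x3*x4*x4 + (4)*i^0*x3*x4*x5 + (-2)*i^1*x3*x4*x5 +
      (-3)*i^1*x4*x4*x4 + (2)*i^0*x4*x4*x5 + (-1)*i^1*x4*x4*x5 + (8)*i^0*x0*x1*x5 +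
      (6)*i^1*x0*x1*x5) * h3
  · linear_combination
      ((1+1*i)*x0*x0 + (2+1*i)*x0*x1 + (1+1*i)*x0*x2 + (2+1*i)*x0*x3 + (0+1*i)*x0*x5 +
      (1+2*i)*x1*x1 + (0+2*i)*x1*x3 + (0+1*i)*x1*x4 + (2+0*i)*x1*x5 + (2+0*i)*x2*x2 +
      (2+2*i)*x2*x3 + (1+1*i)*x2*x4 + (1+0*i)*x2*x5 + (1+2*i)*x3*x3 + (2+1*i)*x3*x4 +
      (0+2*i)*x3*x5 + (1+1*i)*x4*x4 + (2+2*i)*x4*x5 + (2+2*i)*x5*x5) * h0 + ((2+2*i)*x0*x0 +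
      (1+2*i)*x0*x1 + (2+2*i)*x0*x2 + (2+1*i)*x0*x3 + (1+1*i)*x0*x4 + (1+2*i)*x1*x1 +
      (1+1*i)*x1*x4 + (2+1*i)*x2*x2 + (0+2*i)*x2*x3 + (2+2*i)*x2*x4 + (2+0*i)*x3*x3 +
      (2+2*i)*x3*x4 + (0+1*i)*x4*x4) * h1 + ((2+1*i)*x0*x1 + (1+0*i)*x0*x2 + (1+0*i)*x0*x3 +
      (2+0*i)*x1*x1 + (2+2*i)*x1*x2 + (0+1*i)*x1*x3 + (0+1*i)*x2*x2 + (1+1*i)*x3*x3) * h2 +
      ((1+0*i)*x0 + (0+1*i)*x1 + (2+2*i)*x2) * p0 + ((2+0*i)*x0 + (0+2*i)*x1 + (1+1*i)*x2) *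
      p1 + ((0+1*i)*x0 + (1+0*i)*x1 + (2+2*i)*x2) * p2 + ((-1)*i^2*x0*x1*x1 +
      (-8)*i^2*x0*x1*x2 + (-1)*i^2*x0*x1*x4 + (-8)*i^2*x0*x1*x5 + (-2)*i^2*x1*x1*x2 +
      (-1)*i^2*x1*x1*x3 + (-17)*i^2*x1*x2*x2 + (-8)*i^2*x1*x2*x3 + (-2)*i^2*x1*x2*x4 +
      (-16)*i^2*x1*x2*x5 + (-1)*i^2*x1*x3*x3 + (-1)*i^2*x1*x3*x4 + (-8)*i^2*x1*x3*x5 +
      (-8)*i^2*x2*x2*x2 + (-1)*i^2*x2*x2*x4 + (-8)*i^2*x2*x2*x5 + (-8)*i^2*x2*x3*x3 +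
      (-1)*i^2*x3*x3*x4 + (-8)*i^2*x3*x3*x5 + (-2)*i^1*x0*x0*x1 + (-8)*i^1*x0*x0*x2 +
      (-2)*i^1*x0*x0*x4 + (-8)*i^1*x0*x0*x5 + (-4)*i^1*x0*x1*x1 + (-27)*i^1*x0*x1*x2 +
      (-2)*i^1*x0*x1*x3 + (-11)*i^1*x0*x1*x4 + (-36)*i^1*x0*x1*x5 + (-16)*i^1*x0*x2*x2 +
      (-12)*i^1*x0*x2*x3 + (-7)*i^1*x0*x2*x4 + (-16)*i^1*x0*x2*x5 + (-2)*i^1*x0*x3*x4 +
      (-12)*i^1*x0*x3*x5 + (-1)*i^1*x0*x4*x4 + (-4)*i^1*x0*x4*x5 + (-4)*i^1*x1*x1*x1 +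
      (-26)*i^1*x1*x1*x2 + (-5)*i^1*x1*x1*x4 + (-24)*i^1*x1*x1*x5 + (-20)*i^1*x1*x2*x4 +
      (-8)*i^1*x1*x3*x4 + (-2)*i^1*x1*x4*x4 + (-4)*i^1*x1*x4*x5 + (-17)*i^1*x1*x2*x2 +
      (-4)*i^1*x2*x2*x2 + (-8)*i^1*x2*x2*x3 + (-15)*i^1*x2*x2*x4 + (-16)*i^1*x2*x2*x5 +
      (-2)*i^1*x1*x2*x3 + (-8)*i^1*x2*x3*x3 + (-10)*i^1*x2*x3*x4 + (-8)*i^1*x2*x3*x5 +
      (-6)*i^1*x2*x4*x4 + (-8)*i^1*x2*x4*x5 + (-1)*i^1*x1*x3*x3 + (-7)*i^1*x3*x3*x4 +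
      (-20)*i^1*x3*x3*x5 + (-2)*i^1*x3*x4*x4 + (-8)*i^1*x3*x4*x5 + (-1)*i^1*x4*x4*x4 +
      (-4)*i^1*x4*x4*x5 + (-40)*i^1*x1*x2*x5 + (-12)*i^1*x1*x3*x5 + (-3)*i^0*x0*x0*x1 +
      (-10)*i^0*x0*x0*x2 + (-11)*i^0*x0*x0*x4 + (-18)*i^0*x0*x0*x5 + (-1)*i^0*x0*x1*x1 +
      (-1)*i^0*x0*x1*x2 + (-3)*i^0*x0*x1*x3 + (-34)*i^0*x0*x1*x4 + (-37)*i^0*x0*x1*x5 +
      (-10)*i^0*x0*x2*x2 + (-10)*i^0*x0*x2*x3 + (-21)*i^0*x0*x2*x4 + (-32)*i^0*x0*x2*x5 +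
      (-13)*i^0*x0*x3*x4 + (-26)*i^0*x0*x3*x5 + (-9)*i^0*x0*x4*x5 + (-2)*i^0*x0*x5*x5 +
      (-3)*i^0*x1*x1*x1 + (-6)*i^0*x1*x1*x2 + (-1)*i^0*x1*x1*x3 + (-25)*i^0*x1*x1*x4 +
      (-40)*i^0*x1*x1*x5 + (2)*i^0*x1*x2*x3 + (-3)*i^0*x1*x3*x3 + (-16)*i^0*x1*x3*x4 +
      (-4)*i^0*x1*x3*x5 + (-43)*i^0*x1*x2*x4 + (-7)*i^0*x1*x4*x4 + (-12)*i^0*x1*x4*x5 +
      (-20)*i^0*x1*x2*x5 + (-2)*i^0*x1*x5*x5 + (15)*i^0*x1*x2*x2 + (-4)*i^0*x2*x2*x3 +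
      (-27)*i^0*x2*x2*x4 + (-10)*i^0*x2*x2*x5 + (-4)*i^0*x2*x3*x3 + (-20)*i^0*x2*x3*x4 +
      (-16)*i^0*x2*x3*x5 + (-13)*i^0*x2*x4*x4 + (-22)*i^0*x2*x4*x5 + (-4)*i^0*x2*x5*x5 +
      (-21)*i^0*x3*x3*x4 + (-22)*i^0*x3*x3*x5 + (-11)*i^0*x3*x4*x4 + (-20)*i^0*x3*x4*x5 +
      (-4)*i^0*x3*x5*x5 + (-5)*i^0*x0*x4*x4 + (-5)*i^0*x4*x4*x4 + (-8)*i^0*x4*x4*x5 +
      (-6)*i^0*x4*x5*x5 + (-4)*i^0*x5*x5*x5) * hi + ((1)*i^0*x5*x5*x5 + (-1)*i^0*x0*x0*x0 +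
      (-1)*i^1*x0*x0*x0 + (-1)*i^0*x0*x0*x1 + (-1)*i^1*x0*x0*x1 + (2)*i^0*x0*x0*x2 +
      (1)*i^1*x0*x0*x2 + (-5)*i^0*x0*x0*x3 + (-4)*i^1*x0*x0*x3 + (-6)*i^1*x0*x0*x4 +
      (5)*i^0*x0*x0*x5 + (-2)*i^1*x0*x0*x5 + (-1)*i^0*x0*x1*x1 + (-1)*i^1*x0*x1*x1 +
      (-1)*i^0*x0*x1*x2 + (6)*i^1*x0*x1*x2 + (-7)*i^0*x0*x1*x3 + (-7)*i^1*x0*x1*x3 +
      (3)*i^0*x0*x1*x4 + (-13)*i^1*x0*x1*x4 + (10)*i^0*x0*x1*x5 + (4)*i^1*x0*x1*x5 +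
      (2)*i^0*x0*x2*x2 + (4)*i^1*x0*x2*x2 + (-4)*i^0*x0*x2*x3 + (-2)*i^1*x0*x2*x3 +
      (-9)*i^1*x0*x2*x4 + (9)*i^0*x0*x2*x5 + (-1)*i^1*x0*x2*x5 + (-8)*i^0*x0*x3*x3 +
      (-3)*i^1*x0*x3*x3 + (-5)*i^0*x0*x3*x4 + (-11)*i^1*x0*x3*x4 + (7)*i^0*x0*x3*x5 +
      (-4)*i^1*x0*x3*x5 + (2)*i^0*x0*x4*x5 + (-2)*i^1*x0*x4*x5 + (-1)*i^1*x0*x5*x5 +
      (1)*i^0*x1*x1*x1 + (1)*i^1*x1*x1*x1 + (2)*i^0*x1*x1*x2 + (8)*i^1*x1*x1*x2 +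
      (-7)*i^0*x1*x1*x3 + (-4)*i^1*x1*x1*x3 + (1)*i^0*x1*x1*x4 + (-12)*i^1*x1*x1*x4 +
      (12)*i^0*x1*x1*x5 + (-6)*i^0*x1*x2*x3 + (-6)*i^1*x1*x2*x3 + (1)*i^0*x1*x3*x3 +
      (-4)*i^1*x1*x3*x3 + (4)*i^0*x1*x3*x4 + (-4)*i^1*x1*x3*x4 + (3)*i^1*x1*x3*x5 +
      (9)*i^0*x1*x2*x4 + (-7)*i^1*x1*x2*x4 + (1)*i^0*x1*x4*x4 + (-3)*i^1*x1*x4*x4 +
      (2)*i^0*x1*x4*x5 + (-2)*i^1*x1*x4*x5 + (6)*i^0*x1*x2*x5 + (7)*i^1*x1*x2*x5 +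
      (-2)*i^1*x1*x5*x5 + (-5)*i^0*x1*x2*x2 + (5)*i^1*x1*x2*x2 + (-3)*i^0*x2*x2*x3 +
      (-3)*i^1*x2*x2*x3 + (5)*i^0*x2*x2*x4 + (-3)*i^1*x2*x2*x4 + (2)*i^0*x2*x2*x5 +
      (-2)*i^1*x2*x3*x3 + (2)*i^0*x2*x3*x4 + (-6)*i^1*x2*x3*x4 + (4)*i^0*x2*x3*x5 +
      (1)*i^0*x2*x4*x4 + (-5)*i^1*x2*x4*x4 + (5)*i^0*x2*x4*x5 + (-4)*i^1*x2*x4*x5 +
      (1)*i^0*x2*x5*x5 + (-2)*i^1*x2*x5*x5 + (-6)*i^0*x3*x3*x3 + (-4)*i^1*x3*x3*x3 +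
      (-3)*i^0*x3*x3*x4 + (-12)*i^1*x3*x3*x4 + (6)*i^0*x3*x3*x5 + (-1)*i^1*x3*x3*x5 +
      (-1)*i^0*x3*x4*x4 + (-8)*i^1*x3*x4*x4 + (4)*i^0*x3*x4*x5 + (-5)*i^1*x3*x4*x5 +
      (-2)*i^1*x3*x5*x5 + (-3)*i^1*x0*x4*x4 + (1)*i^0*x4*x4*x4 + (-2)*i^1*x4*x4*x4 +
      (1)*i^0*x4*x4*x5 + (-2)*i^1*x4*x4*x5 + (-4)*i^1*x4*x5*x5 + (-2)*i^1*x5*x5*x5) * h3

def tt {k : Type} [Field k] (i : k) : Fin 3 × Bool → k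
  | (0, false) => 1 + 0 * i
  | (0, true) => 0 + 1 * i
  | (1, false) => 0 + 2 * i
  | (1, true) => 2 + 0 * i
  | (2, false) => 2 + 1 * i
  | (2, true) => 1 + 2 * i

theorem tt_ok {k : Type} [Field k] [CharP k 3] (i : k) (hi : i ^ 2 + 1 = 0) :
    Function.Injective (tt i) ∧ ∀ v, tt i v ≠ 0 := by
  have h3 : (3 : k) = 0 := CharP.cast_eq_zero k 3
  have key : ∀ a b : ℤ, (a : k) + b * i = 0 → (3 : ℤ) ∣ a ^ 2 + b ^ 2 := by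
    intro a b h
    rw [← Nat.cast_ofNat, ← CharP.intCast_eq_zero_iff k 3]
    push_cast
    linear_combination (a - b * i) * h + b ^ 2 * hi
  let c : Fin 3 × Bool → ℤ × ℤ := fun v => match v with
    | (0, false) => (1, 0)
    | (0, true) => (0, 1)
    | (1, false) => (0, 2)
    | (1, true) => (2, 0)
    | (2, false) => (2, 1)
    | (2, true) => (1, 2)
  have hc : ∀ v, tt i v = (c v).1 + (c v).2 * i := by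
    rintro ⟨j, b⟩
    fin_cases j <;> cases b <;> simp [tt, c]
  constructor
  · intro u v h
    have := key ((c u).1 - (c v).1) ((c u).2 - (c v).2) (by
      rw [hc, hc] at h; push_cast; linear_combination h)
    revert this
    clear h
    revert u v
    decide
  · intro v h
    have := key _ _ (hc v ▸ h)
    revert this
    clear h
    revert v
    decide

theorem main {k : Type} [Field k] [CharP k 3] (i : k) (hi : i ^ 2 + 1 = 0) :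
    ¬ HasLefschetz octahedron 3 (tt i) := by
  rintro ⟨l, ⟨p, hp, rfl⟩, hl⟩
  set J := artIdeal octahedron 3 (tt i) with hJ
  have hne : (1 : MvPolynomial (Fin 3 × Bool) k ⧸ J) ≠ 0 := by
    intro h
    have h1 : (1 : MvPolynomial (Fin 3 × Bool) k) ∈ J := Ideal.Quotient.eq_zero_iff_mem.mp h
    have h2 : J ≤ RingHom.ker constantCoeff := by
      refine sup_le (Ideal.span_le.mpr ?_) (Ideal.span_le.mpr ?_)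
      · rintro _ ⟨s, hs, rfl⟩
        have : s.Nonempty := by
          rw [Finset.nonempty_iff_ne_empty]
          rintro rfl
          exact hs (by simp [octahedron])
        obtain ⟨v, hv⟩ := this
        simp only [SetLike.mem_coe, RingHom.mem_ker, map_prod, constantCoeff_X]
        exact Finset.prod_eq_zero hv rfl
      · rintro _ ⟨j, -, -, rfl⟩
        simp
    simpa using h2 h1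
  let π := Ideal.Quotient.mkₐ k J
  have h3 : (3 : MvPolynomial (Fin 3 × Bool) k ⧸ J) = 0 := by
    have := congrArg (algebraMap k (MvPolynomial (Fin 3 × Bool) k ⧸ J)) (CharP.cast_eq_zero k 3)
    rw [Nat.cast_ofNat, map_ofNat, map_zero] at this
    exact this
  have hp' : ∀ j : Fin 3, π (X (j, false)) * π (X (j, true)) = 0 := by
    intro j
    rw [← map_mul]
    refine Ideal.Quotient.eq_zero_iff_mem.mpr (Ideal.mem_sup_left (Ideal.subset_span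
      ⟨{(j, false), (j, true)}, fun h => h j (by simp), ?_⟩))
    rw [Finset.prod_pair (by simp)]
  have hθ : ∀ j, 1 ≤ j → j ≤ 3 → ∑ v, algebraMap k _ (tt i v) ^ j * π (X v) = 0 := by
    intro j h1 h2
    have : π (∑ v, C (tt i v ^ j) * X v) = 0 :=
      Ideal.Quotient.eq_zero_iff_mem.mpr (Ideal.mem_sup_right (Ideal.subset_span ⟨j, h1, h2, rfl⟩))
    rw [← this, map_sum]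
    refine Finset.sum_congr rfl fun v _ => ?_
    rw [map_mul, ← map_pow, ← π.commutes]
    rfl
  have hc := cubes (algebraMap k _ i) (π (X (0, false))) (π (X (0, true))) (π (X (1, false)))
    (π (X (1, true))) (π (X (2, false))) (π (X (2, true)))
    (by simpa using congrArg (algebraMap k (MvPolynomial (Fin 3 × Bool) k ⧸ J)) hi) h3
    (hp' 0) (hp' 1) (hp' 2)
    (by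
      have := hθ 1 (by norm_num) (by norm_num)
      simp only [Fintype.sum_prod_type, Fin.sum_univ_three, Fintype.sum_bool, tt, map_add, map_mul,
        map_zero, map_one, map_ofNat] at this
      linear_combination this)
    (by
      have := hθ 2 (by norm_num) (by norm_num)
      simp only [Fintype.sum_prod_type, Fin.sum_univ_three, Fintype.sum_bool, tt, map_add, map_mul,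
        map_zero, map_one, map_ofNat] at this
      linear_combination this)
    (by
      have := hθ 3 (by norm_num) (by norm_num)
      simp only [Fintype.sum_prod_type, Fin.sum_univ_three, Fintype.sum_bool, tt, map_add, map_mul,
        map_zero, map_one, map_ofNat] at this
      linear_combination this)
  have hX : ∀ v, π (X v) ^ 3 = 0 := by
    rintro ⟨j, b⟩
    obtain ⟨c0, c1, c2, c3, c4, c5⟩ := hc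
    fin_cases j <;> cases b <;> assumption
  have hcube : π p ^ 3 = 0 := by
    have hp2 : p ∈ Submodule.span k (Set.range (X : Fin 3 × Bool → MvPolynomial _ k)) := by
      rw [← homogeneousSubmodule_one_eq_span_X]; exact hp
    clear hl hp
    induction hp2 using Submodule.span_induction with
    | mem x hx => obtain ⟨v, rfl⟩ := hx; exact hX v
    | zero => simp
    | add x y _ _ hx hy =>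
      rw [map_add]
      linear_combination hx + hy + (π x ^ 2 * π y + π x * π y ^ 2) * h3
    | smul a x _ hx => rw [map_smul, smul_pow, hx, smul_zero]
  have h0 := (hl 0 (by norm_num)).injOn
  have m1 : (1 : MvPolynomial (Fin 3 × Bool) k ⧸ J) ∈ piece octahedron 3 (tt i) 0 :=
    ⟨1, isHomogeneous_one _ _, rfl⟩
  refine hne (h0 m1 (zero_mem _) ?_)
  show π p ^ 3 * 1 = π p ^ 3 * 0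
  rw [hcube, zero_mul, zero_mul]

/-- Over an infinite field, for the boundary of the octahedron and suitable pairwise distinct nonzero
parameters, the moment-curve Artinian reduction does not have the Lefschetz property. -/
theorem result : ∃ (k : Type) (_ : Field k), Infinite k ∧ ∃ t : Fin 3 × Bool → k,
    Function.Injective t ∧ (∀ v, t v ≠ 0) ∧ ¬ HasLefschetz octahedron 3 t := by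
  have : Fact (Nat.Prime 3) := ⟨by norm_num⟩
  obtain ⟨i, hi⟩ := IsAlgClosed.exists_pow_nat_eq (-1 : AlgebraicClosure (ZMod 3)) (n := 2)
    (by norm_num)
  have hi' : i ^ 2 + 1 = 0 := by rw [hi]; ring
  exact ⟨AlgebraicClosure (ZMod 3), inferInstance, inferInstance, tt i, (tt_ok i hi').1,
    (tt_ok i hi').2, main i hi'⟩

end Pool.Agent.Results.MP_487945_co.Octahedron
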